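import Pool.Agent.W763.PB.Stm

set_option autoImplicit false

open Filter Topology
open scoped InnerProductSpace

namespace Pool.Agent.W371.PB.Y4

open Pool.Agent.W763.PB

noncomputable section

theorem y4 : S_R1 → S_R3 → S_L3 → S_Y1 → S_Y4 := by
  intro hR1 hR3 hL3 hY1 k b H _ _ _ U D J E _ _ _ i UE DE S v hv
  have hk := S.hk
  have hb := S.hb
  have hb64 : (64 : ℝ) ≤ b := by nlinarith
  have hb0 : (0 : ℝ) < b := by linarith
  have hb1 : 1 < b := by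
    have : (1 : ℝ) < b := by linarith
    exact_mod_cast this
  obtain ⟨hk0, hk1, -⟩ := (hR1 k hk).1 1 zero_le_one le_rfl
  set α : ℝ := kap k 1 * (1 / 2) with hα
  have hα0 : 0 < α := by positivity
  have hα1 : α ≤ 1 := by rw [hα]; linarith
  obtain ⟨L1, L2, -, L4, L5⟩ := hL3 H J E i S.iJ S.dense
  have claim : ∀ l j : ℕ, l ≤ j → ∀ x : H l,
      α * ‖x‖ ^ 2 ≤ (⟪i l x, (UE ^ (b ^ j)) (i l x)⟫_ℂ).re := by
    intro l j hlj x
    set x' : H j := ContinuousLinearMap.adjoint (i j).toContinuousLinearMap (i l x) with hx'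
    have e1 : i j x' = i l x := L2 l j x hlj
    have e2 : ‖x'‖ = ‖x‖ := by
      rw [← (i j).norm_map x', e1, (i l).norm_map]
    have h1 := hY1 k b H U D J E i UE DE S j (b ^ j) le_rfl x' x'
    rw [(S.lev j).per, e1] at h1
    have h2 := (Complex.continuous_re.tendsto _).comp h1
    refine ge_of_tendsto h2 ?_
    filter_upwards [eventually_ge_atTop 1] with n hn
    obtain ⟨m, rfl⟩ : ∃ m, n = m + 1 := ⟨n - 1, by omega⟩
    have e3 : ⟪x', (1 : H j ≃ₗᵢ[ℂ] H j) x'⟫_ℂ = ((‖x‖ ^ 2 : ℝ) : ℂ) := by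
      rw [← e2]
      change ⟪x', x'⟫_ℂ = _
      rw [inner_self_eq_norm_sq_to_K]
      push_cast
      rfl
    simp only [Function.comp_apply]
    rw [e3, ← Complex.ofReal_mul, Complex.ofReal_re]
    refine mul_le_mul_of_nonneg_right ?_ (sq_nonneg _)
    rw [Finset.prod_range_succ']
    have e4 : kap k (((b ^ j : ℕ) : ℝ) / ((b ^ (j + 0) : ℕ) : ℝ)) = kap k 1 := by
      rw [add_zero, div_self]
      push_cast
      positivity
    have e5 : ∀ s ∈ Finset.range m, kap k (((b ^ j : ℕ) : ℝ) / ((b ^ (j + (s + 1)) : ℕ) : ℝ)) =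
        kap k ((1 / (b : ℝ)) ^ (s + 1)) := by
      intro s _
      congr 1
      push_cast
      rw [pow_add (b : ℝ) j (s + 1), one_div, inv_pow]
      field_simp
    rw [e4, Finset.prod_congr rfl e5, hα, mul_comm]
    exact mul_le_mul_of_nonneg_right (hR3 k b hk hb m) hk0.le
  by_contra hv0
  have hvn : 0 < ‖v‖ := norm_pos_iff.2 hv0
  have hε : 0 < α / 8 * ‖v‖ := by positivity
  obtain ⟨l, hl⟩ := ((L4 v).eventually (Metric.ball_mem_nhds v hε)).exists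
  set x : H l := ContinuousLinearMap.adjoint (i l).toContinuousLinearMap v with hx
  set p : E := i l x with hp
  have hpv : ‖p - v‖ < α / 8 * ‖v‖ := by
    rw [← dist_eq_norm]; exact hl
  have hpn : ‖v‖ / 2 ≤ ‖p‖ := by
    have h1 : ‖v‖ ≤ ‖p‖ + ‖p - v‖ := by
      calc ‖v‖ = ‖p - (p - v)‖ := by congr 1; abel
        _ ≤ _ := norm_sub_le _ _
    have h2 : α / 8 * ‖v‖ ≤ 1 / 8 * ‖v‖ := by gcongr
    linarith
  have hxp : ‖x‖ = ‖p‖ := ((i l).norm_map x).symm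
  have hnorm : ∀ (n : ℕ) (w : E), ‖(UE ^ n) w‖ = ‖w‖ := fun n w => (UE ^ n).norm_map w
  have hev : ∀ j : ℕ, l ≤ j →
      α * ‖p‖ ^ 2 - ‖p‖ * ‖p - v‖ ≤ (⟪p, (UE ^ (b ^ j)) v⟫_ℂ).re := by
    intro j hj
    have h1 := claim l j hj x
    rw [hxp] at h1
    have h2 : ⟪p, (UE ^ (b ^ j)) p⟫_ℂ = ⟪p, (UE ^ (b ^ j)) v⟫_ℂ + ⟪p, (UE ^ (b ^ j)) (p - v)⟫_ℂ := by
      rw [← inner_add_right, ← map_add]
      congr 2
      abel
    have h3 : (⟪p, (UE ^ (b ^ j)) (p - v)⟫_ℂ).re ≤ ‖p‖ * ‖p - v‖ := by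
      refine (Complex.re_le_norm _).trans ((norm_inner_le_norm _ _).trans ?_)
      rw [hnorm]
    have h4 : (⟪p, (UE ^ (b ^ j)) p⟫_ℂ).re = (⟪p, (UE ^ (b ^ j)) v⟫_ℂ).re +
        (⟪p, (UE ^ (b ^ j)) (p - v)⟫_ℂ).re := by rw [h2, Complex.add_re]
    have h5 : α * ‖p‖ ^ 2 ≤ (⟪p, (UE ^ (b ^ j)) p⟫_ℂ).re := h1
    linarith
  have hlim : Tendsto (fun j : ℕ => (⟪p, (UE ^ (b ^ j)) v⟫_ℂ).re) atTop (𝓝 0) := by
    have h1 := (hv p).comp (tendsto_pow_atTop_atTop_of_one_lt hb1)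
    have h2 := (Complex.continuous_re.tendsto _).comp h1
    rw [Complex.zero_re] at h2
    exact h2
  have hfin : α * ‖p‖ ^ 2 - ‖p‖ * ‖p - v‖ ≤ 0 := by
    refine ge_of_tendsto hlim ?_
    filter_upwards [eventually_ge_atTop l] with j hj using hev j hj
  have hpp : 0 < ‖p‖ := by linarith
  have h6 : α * ‖p‖ ≤ ‖p - v‖ := by
    have : ‖p‖ * (α * ‖p‖) ≤ ‖p‖ * ‖p - v‖ := by nlinarith
    exact le_of_mul_le_mul_left this hpp
  have h7 : α / 8 * ‖v‖ ≤ α / 4 * ‖p‖ := by nlinarith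
  nlinarith

end

end Pool.Agent.W371.PB.Y4
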